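import Pool.Agent.Lib_helper10.RY.Ext

/-!
The partition lemma for flats, and how it increases the dimension of the intersection.
-/

set_option linter.unusedSectionVars false

namespace Pool.Agent.RY

open scoped BigOperators Topology
open Module Filter

/-- The partition lemma: flats `U c` of codimension `d c` in `V` and
`∑ d c - dim V + 1` points; some partition of the points into classes has a common nonzero
vector `u` in all `U c + cone (class c)`, and is spanning. -/
def LPP : Prop :=
  ∀ (V : Type) [AddCommGroup V] [Module ℝ V] [FiniteDimensional ℝ V] (C P : Type) [Fintype C]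
    [DecidableEq C] [Fintype P] [DecidableEq P] (U : C → Submodule ℝ V) (x : P → V),
    (∀ c, U c ≠ ⊤) →
    (∀ c i, i ≠ c → 2 * (finrank ℝ V - finrank ℝ (U c)) + (finrank ℝ V - finrank ℝ (U i))
      ≤ finrank ℝ V) →
    (Fintype.card P + finrank ℝ V = ∑ c, (finrank ℝ V - finrank ℝ (U c)) + 1) →
    (∀ c v, (∀ i, i ≠ c → v ∈ U i) → v = 0) →
    (∀ i j, i ≠ j → U i ⊔ U j = ⊤) →
    (∀ c (T : Finset P), T.card ≤ finrank ℝ V - finrank ℝ (U c) → ∀ b : P → ℝ,
      ∑ p ∈ T, b p • x p ∈ U c → ∀ p ∈ T, b p = 0) →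
    (∀ l : Dual ℝ V, l ≠ 0 → ∃ p, l (x p) < 0) →
    ∃ (s : P → C) (a : P → ℝ) (u : V), (∀ p, 0 ≤ a p) ∧ u ≠ 0 ∧
      (∀ c, ∑ p with s p = c, a p • x p - u ∈ U c) ∧
      (∀ w : C → V, ∃ (b : P → ℝ) (v : V), ∀ c,
        w c - v - ∑ p with s p = c, b p • x p ∈ U c)

section lp

lemma finrank_map_mkQ {V : Type*} [AddCommGroup V] [Module ℝ V] [FiniteDimensional ℝ V]
    {L U : Submodule ℝ V} (h : L ≤ U) :
    finrank ℝ (U.map L.mkQ) + finrank ℝ L = finrank ℝ U := by
  have h1 := LinearMap.finrank_range_add_finrank_ker (L.mkQ.domRestrict U)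
  have h2 : LinearMap.range (L.mkQ.domRestrict U) = U.map L.mkQ := by
    rw [LinearMap.range_domRestrict]
  have h3 : LinearMap.ker (L.mkQ.domRestrict U) = L.comap U.subtype := by
    ext v
    simp [LinearMap.domRestrict_apply]
  rw [h2, h3, (Submodule.comapSubtypeEquivOfLe h).finrank_eq] at h1
  exact h1

lemma mem_of_mkQ_mem {V : Type*} [AddCommGroup V] [Module ℝ V]
    {L U : Submodule ℝ V} (h : L ≤ U) {v : V} (hv : L.mkQ v ∈ U.map L.mkQ) : v ∈ U := by
  obtain ⟨u, hu, huv⟩ := hv
  have h1 : L.mkQ (u - v) = 0 := by rw [map_sub, huv, sub_self]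
  rw [Submodule.mkQ_apply, Submodule.Quotient.mk_eq_zero] at h1
  have h2 := U.sub_mem hu (h h1)
  simpa using h2

variable {V : Type} [AddCommGroup V] [Module ℝ V] [FiniteDimensional ℝ V] {r : ℕ}

/-- with the partition lemma, a state with maximal intersection has large defects -/
theorem lp_false (hLP : LPP) {X : Finset V} (hX : Gen X) (hr : 0 < r) {F : Fin r → Finset V}
    (hF : St X F) (he : finrank ℝ (MM (UU F) ⊤) < (pool X F).card)
    (hmax : ∀ F' : Fin r → Finset V, St X F' → finrank ℝ (LL F') ≤ finrank ℝ (LL F))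
    (hk : 1 ≤ finrank ℝ (LL F)) (hkD : finrank ℝ (LL F) < finrank ℝ V)
    (hd : ∀ c ∈ NF F, ∀ i ∈ NF F, i ≠ c →
      2 * (finrank ℝ V - (F c).card) + (finrank ℝ V - (F i).card) + finrank ℝ (LL F)
        ≤ finrank ℝ V) : False := by
  classical
  set L := LL F with hL
  set D := finrank ℝ V with hD
  set κ := finrank ℝ L with hκ
  obtain ⟨P', hP', hcard⟩ := Finset.exists_subset_card_eq
    (show finrank ℝ (MM (UU F) ⊤) + 1 ≤ (pool X F).card from he)
  have hPX : P' ⊆ X := fun x hx => (mem_pool.mp (hP' hx)).1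
  have hLU : ∀ j, L ≤ UU F j := fun j => iInf_le _ j
  have hmem : ∀ j, j ∈ NF F → (F j).card < D := by
    intro j hj
    exact (Finset.mem_filter.mp hj).2
  have hnot : ∀ j, j ∉ NF F → UU F j = ⊤ := by
    intro j hj
    apply hX.UU_eq_top hF
    by_contra h
    exact hj (Finset.mem_filter.mpr ⟨Finset.mem_univ _, not_le.mp h⟩)
  have hq : finrank ℝ (MM (UU F) ⊤) + D = ∑ j ∈ NF F, (D - (F j).card) + κ :=
    quot_count hX hr hF
  have hQ : finrank ℝ (V ⧸ L) + κ = D := Submodule.finrank_quotient_add_finrank L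
  let U : {j // j ∈ NF F} → Submodule ℝ (V ⧸ L) := fun c => (UU F c.1).map L.mkQ
  have hUfr : ∀ c : {j // j ∈ NF F}, finrank ℝ (U c) + κ = (F c.1).card := by
    intro c
    have h1 := finrank_map_mkQ (hLU c.1)
    have h2 := hX.finrank_UU hF c.1
    rw [min_eq_left (hmem c.1 c.2).le] at h2
    rw [← h2]
    exact h1
  have hdel : ∀ c : {j // j ∈ NF F},
      finrank ℝ (V ⧸ L) - finrank ℝ (U c) = D - (F c.1).card := by
    intro c
    have := hUfr c
    omega
  have hinj : ∀ c ∈ NF F, ∀ v, (∀ i, i ≠ c → v ∈ UU F i) → v ∈ UU F c := by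
    intro c hc
    obtain ⟨K, _, _, _, _, _, h⟩ := mono_step hX hF c (UU_ne_top hX hF (hmem c hc)) he hmax
    exact h
  obtain ⟨s, a, u, ha, hu0, hu, hsp⟩ := hLP (V ⧸ L) {j // j ∈ NF F} {x // x ∈ P'} U
    (fun p => L.mkQ p.1) (by
      intro c h
      have h1 := hUfr c
      rw [h, finrank_top] at h1
      have h2 := hmem c.1 c.2
      omega) (by
      intro c i hic
      rw [hdel c, hdel i]
      have h1 := hd c.1 c.2 i.1 i.2 (fun h => hic (Subtype.ext h))
      omega) (by
      rw [Fintype.card_coe, hcard]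
      have h1 : ∑ c : {j // j ∈ NF F}, (finrank ℝ (V ⧸ L) - finrank ℝ (U c))
          = ∑ j ∈ NF F, (D - (F j).card) := by
        rw [← Finset.sum_coe_sort (NF F)]
        exact Finset.sum_congr rfl fun c _ => hdel c
      rw [h1]
      omega) (by
      intro c v hv
      obtain ⟨v, rfl⟩ := Submodule.mkQ_surjective _ v
      have h1 : ∀ i, i ≠ c.1 → v ∈ UU F i := by
        intro i hi
        by_cases hiN : i ∈ NF F
        · exact mem_of_mkQ_mem (hLU i) (hv ⟨i, hiN⟩ (fun h => hi (congrArg Subtype.val h)))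
        · rw [hnot i hiN]; trivial
      have h2 := hinj c.1 c.2 v h1
      rw [Submodule.mkQ_apply, Submodule.Quotient.mk_eq_zero]
      refine (Submodule.mem_iInf _).mpr fun i => ?_
      by_cases hi : i = c.1
      · rw [hi]; exact h2
      · exact h1 i hi) (by
      intro i j hij
      have hij' : i.1 ≠ j.1 := fun h => hij (Subtype.ext h)
      have h1 := pair' hX hF hk hij'
      have h2 : UU F i.1 ⊔ UU F j.1 = ⊤ := by
        rw [UU, UU, ← Submodule.span_union, ← Finset.coe_union]
        apply hX.span_eq_top (Finset.union_subset (hF.sub _) (hF.sub _))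
        rw [Finset.card_union_of_disjoint (hF.disj _ _ hij')]
        omega
      change (UU F i.1).map L.mkQ ⊔ (UU F j.1).map L.mkQ = ⊤
      rw [← Submodule.map_sup, h2, Submodule.map_top, Submodule.range_mkQ]) (by
      intro c T hT b hb p hp
      rw [hdel c] at hT
      let T' : Finset V := T.map (Function.Embedding.subtype _)
      have hT'X : T' ⊆ X := by
        intro x hx
        obtain ⟨p, _, rfl⟩ := Finset.mem_map.mp hx
        exact hPX p.2
      have hT'card : T'.card = T.card := Finset.card_map _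
      let b' : V → ℝ := fun x => if h : x ∈ P' then b ⟨x, h⟩ else 0
      have hb' : ∀ p : {x // x ∈ P'}, b' p.1 = b p := fun p => by
        simp only [b', p.2, dif_pos]
      have hsum : ∑ x ∈ T', b' x • x = ∑ p ∈ T, b p • p.1 := by
        rw [Finset.sum_map]
        exact Finset.sum_congr rfl fun p _ => by
          rw [Function.Embedding.subtype_apply, hb' p]
      have h1 : ∑ x ∈ T', b' x • x ∈ UU F c.1 := by
        apply mem_of_mkQ_mem (hLU c.1)
        rw [hsum, map_sum]
        have h2 : ∑ p ∈ T, L.mkQ (b p • p.1) = ∑ p ∈ T, b p • L.mkQ p.1 :=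
          Finset.sum_congr rfl fun p _ => by rw [map_smul]
        rw [h2]
        exact hb
      have hdj : Disjoint (F c.1) T' := by
        rw [Finset.disjoint_left]
        intro x hx hx'
        obtain ⟨p, _, rfl⟩ := Finset.mem_map.mp hx'
        exact (mem_pool.mp (hP' p.2)).2 c.1 hx
      have hc := hmem c.1 c.2
      have h2 := hX.disj_span (hF.sub c.1) hT'X hdj (by omega)
      have h3 : ∑ x ∈ T', b' x • x ∈ Submodule.span ℝ (T' : Set V) := mem_span_iff.mpr ⟨b', rfl⟩
      have h4 := Submodule.disjoint_def.mp h2 _ h1 h3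
      have h5 := coeff_zero (hX.ind T' hT'X (by omega)) b' h4 p.1
        (Finset.mem_map.mpr ⟨p, hp, rfl⟩)
      rw [← hb' p]
      exact h5) (by
      intro l hl
      by_contra hcon
      push Not at hcon
      refine no_half hX hr hF he hmax hP' hcard (l ∘ₗ L.mkQ) ?_ ?_ ?_
      · intro h
        apply hl
        apply LinearMap.ext
        intro v
        obtain ⟨v, rfl⟩ := Submodule.mkQ_surjective _ v
        exact congrArg (fun f : Dual ℝ V => f v) h
      · intro v hv
        have : L.mkQ v = 0 := by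
          rw [Submodule.mkQ_apply, Submodule.Quotient.mk_eq_zero]
          exact hv
        rw [LinearMap.comp_apply, this, map_zero]
      · intro x hx
        exact hcon ⟨x, hx⟩)
  obtain ⟨u0, rfl⟩ := Submodule.mkQ_surjective _ u
  let s' : V → Fin r := fun x => if h : x ∈ P' then (s ⟨x, h⟩).1 else ⟨0, hr⟩
  have hs' : ∀ p : {x // x ∈ P'}, s' p.1 = (s p).1 := fun p => by
    simp only [s', p.2, dif_pos]
  -- sums over colour classes
  have hcls : ∀ (b : {x // x ∈ P'} → ℝ) (j : Fin r) (hj : j ∈ NF F),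
      L.mkQ (∑ x ∈ P'.filter (fun x => s' x = j), (if h : x ∈ P' then b ⟨x, h⟩ else 0) • x)
        = ∑ p with s p = ⟨j, hj⟩, b p • L.mkQ p.1 := by
    intro b j hj
    rw [Finset.sum_filter, Finset.sum_filter, map_sum, ← Finset.sum_coe_sort P']
    refine Finset.sum_congr rfl fun p _ => ?_
    rw [hs' p]
    by_cases h : s p = ⟨j, hj⟩
    · rw [if_pos h, if_pos (by rw [h]), dif_pos p.2, map_smul]
    · rw [if_neg h, if_neg (fun h' => h (Subtype.ext h')), map_zero]
  let a' : V → ℝ := fun x => if h : x ∈ P' then a ⟨x, h⟩ else 0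
  have hu' : ∀ j, ∑ x ∈ P'.filter (fun x => s' x = j), a' x • x - u0 ∈ UU F j := by
    intro j
    by_cases hj : j ∈ NF F
    · apply mem_of_mkQ_mem (hLU j)
      rw [map_sub, hcls a j hj]
      exact hu ⟨j, hj⟩
    · rw [hnot j hj]; trivial
  have hsp' : Submodule.span ℝ {v : MM (UU F) ⊤ | ∃ x ∈ P', io (UU F) ⊤ (s' x) x = v} = ⊤ := by
    rw [eq_top_iff]
    intro v _
    obtain ⟨w, rfl⟩ := Submodule.mkQ_surjective _ v
    obtain ⟨b, v0, hb⟩ := hsp (fun c => L.mkQ (w c.1))
    obtain ⟨v0, rfl⟩ := Submodule.mkQ_surjective _ v0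
    have h1 : (NN (UU F) ⊤).mkQ w
        = ∑ x ∈ P', (if h : x ∈ P' then b ⟨x, h⟩ else 0) • io (UU F) ⊤ (s' x) x := by
      rw [sum_col, ← sub_eq_zero, ← map_sub, mk_eq_zero]
      refine ⟨v0, trivial, fun j => ?_⟩
      by_cases hj : j ∈ NF F
      · apply mem_of_mkQ_mem (hLU j)
        have h2 := hb ⟨j, hj⟩
        rw [map_sub, Pi.sub_apply, map_sub, hcls b j hj, sub_right_comm]
        exact h2
      · rw [hnot j hj]; trivial
    rw [h1]
    exact Submodule.sum_mem _ fun x hx => Submodule.smul_mem _ _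
      (Submodule.subset_span ⟨x, hx, rfl⟩)
  let F' : Fin r → Finset V := fun j => F j ∪ P'.filter (fun x => s' x = j ∧ 0 < a' x)
  have hF' : ∀ j x, x ∈ F' j ↔ x ∈ F j ∨ (x ∈ P' ∧ s' x = j ∧ 0 < a' x) := by
    intro j x
    simp only [F', Finset.mem_union, Finset.mem_filter]
  obtain ⟨hSt, huL, hLL⟩ := advance hF hP' s' a' (fun x hx => by
    simp only [a', hx, dif_pos]; exact ha _) u0 hu' hsp' F' hF'
  have hLeq : LL F = LL F' := Submodule.eq_of_le_of_finrank_le hLL (hmax F' hSt)
  apply hu0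
  rw [Submodule.mkQ_apply, Submodule.Quotient.mk_eq_zero, hL, hLeq]
  exact huL

end lp

end Pool.Agent.RY
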