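import Pool.Agent.Lib_helper10.RZ.Close

/-!
A one-dimensional intersection with two spare points has small defects.
-/

set_option linter.unusedSectionVars false

namespace Pool.Agent.RY

open scoped BigOperators Topology
open Module Filter

section third

variable {V : Type*} [AddCommGroup V] [Module ℝ V] [FiniteDimensional ℝ V] {r : ℕ}

open Classical in
/-- exchange of a circuit against a tie set, for a given point -/
lemma tieK {X : Finset V} (hX : Gen X) {S K : Finset V} (hS : S ⊆ X) (hK : K ⊆ X)
    (hcard : S.card < finrank ℝ V) (hd : Disjoint K S) (hKne : K.Nonempty) {z : V}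
    (hz : Rel S z) {b : V → ℝ} (hb : ∀ x ∈ K, 0 < b x)
    (hbs : ∑ x ∈ K, b x • x ∈ Submodule.span ℝ (S : Set V)) :
    ∃ T ⊆ S, T.Nonempty ∧ Rel (K ∪ (S \ T)) z := by
  have hli := hX.ind S hS hcard.le
  obtain ⟨β, hβ⟩ := mem_span_iff.mp hbs
  obtain ⟨α, hα, hαz⟩ := hz
  obtain ⟨l, hl⟩ := hX.acyc
  obtain ⟨y0, hy0, hy0'⟩ : ∃ x ∈ S, 0 < β x := by
    by_contra hcon
    push Not at hcon
    have h1 : l (∑ x ∈ K, b x • x) ≤ 0 := by
      rw [← hβ, map_sum]
      apply Finset.sum_nonpos
      intro x hx
      rw [map_smul, smul_eq_mul]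
      exact mul_nonpos_of_nonpos_of_nonneg (hcon x hx) (hl x (hS hx)).le
    have h2 : 0 < l (∑ x ∈ K, b x • x) := by
      rw [map_sum]
      apply Finset.sum_pos _ hKne
      intro x hx
      rw [map_smul, smul_eq_mul]
      exact mul_pos (hb x hx) (hl x (hK hx))
    linarith
  obtain ⟨x0, hx0, hmin⟩ := Finset.exists_min_image (S.filter (fun x => 0 < β x))
    (fun x => α x / β x) ⟨y0, Finset.mem_filter.mpr ⟨hy0, hy0'⟩⟩
  obtain ⟨hx0S, hx0β⟩ := Finset.mem_filter.mp hx0
  set s := α x0 / β x0 with hs
  have hspos : 0 < s := div_pos (hα x0 hx0S) hx0β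
  set T := S.filter (fun x => 0 < β x ∧ α x = s * β x) with hT
  have hTS : T ⊆ S := Finset.filter_subset _ _
  have hx0T : x0 ∈ T := by
    rw [hT, Finset.mem_filter]
    refine ⟨hx0S, hx0β, ?_⟩
    rw [hs]
    field_simp
  have hpos : ∀ x ∈ S \ T, 0 < α x - s * β x := by
    intro x hx
    obtain ⟨h1, h2⟩ := Finset.mem_sdiff.mp hx
    by_cases h3 : 0 < β x
    · have h4 := hmin x (Finset.mem_filter.mpr ⟨h1, h3⟩)
      have h5 : s * β x ≤ α x := by
        rwa [le_div_iff₀ h3] at h4
      rcases eq_or_lt_of_le h5 with h6 | h6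
      · exact absurd (Finset.mem_filter.mpr ⟨h1, h3, h6.symm⟩) h2
      · linarith
    · have h4 : s * β x ≤ 0 := mul_nonpos_of_nonneg_of_nonpos hspos.le (not_lt.mp h3)
      linarith [hα x h1]
  have hdis2 : Disjoint K (S \ T) := hd.mono_right Finset.sdiff_subset
  refine ⟨T, hTS, ⟨x0, hx0T⟩, fun x => if x ∈ K then s * b x else α x - s * β x, ?_, ?_⟩
  · intro x hx
    by_cases h1 : x ∈ K
    · simp only [h1, if_true]
      exact mul_pos hspos (hb x h1)
    · simp only [h1, if_false]
      exact hpos x ((Finset.mem_union.mp hx).resolve_left h1)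
  · rw [Finset.sum_union hdis2]
    have e1 : ∑ x ∈ K, (if x ∈ K then s * b x else α x - s * β x) • x
        = s • ∑ x ∈ K, b x • x := by
      rw [Finset.smul_sum]
      exact Finset.sum_congr rfl fun x hx => by rw [if_pos hx, mul_smul]
    have e2 : ∑ x ∈ S \ T, (if x ∈ K then s * b x else α x - s * β x) • x
        = ∑ x ∈ S, (α x - s * β x) • x := by
      have e3 : ∑ x ∈ S \ T, (if x ∈ K then s * b x else α x - s * β x) • x
          = ∑ x ∈ S \ T, (α x - s * β x) • x :=
        Finset.sum_congr rfl fun x hx => by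
          rw [if_neg (fun h => (Finset.disjoint_left.mp hdis2) h hx)]
      rw [e3]
      apply Finset.sum_subset Finset.sdiff_subset
      intro x hx hx'
      have h1 : x ∈ T := by
        by_contra h2
        exact hx' (Finset.mem_sdiff.mpr ⟨hx, h2⟩)
      rw [hT, Finset.mem_filter] at h1
      rw [h1.2.2, sub_self, zero_smul]
    rw [e1, e2, ← hβ]
    simp only [sub_smul, mul_smul, Finset.sum_sub_distrib]
    rw [hαz, ← Finset.smul_sum]
    abel

open Classical in
/-- a second circuit, differing in one element -/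
lemma second {X : Finset V} (hX : Gen X) {S K : Finset V} (hS : S ⊆ X) (hK : K ⊆ X)
    (hcard : S.card < finrank ℝ V) (hKc : K.card + S.card = finrank ℝ V + 1) (hd : Disjoint S K)
    {b : V → ℝ} (hb : ∀ x ∈ K, 0 < b x) (hbs : ∑ x ∈ K, b x • x ∈ Submodule.span ℝ (S : Set V))
    {y : V} (hy : y ∈ X) (hyS : y ∉ S) (hyK : y ∉ K) :
    ∃ K' : Finset V, K' ⊆ insert y K ∧ y ∈ K' ∧ K'.card = K.card ∧
      ∃ b' : V → ℝ, (∀ x ∈ K', 0 < b' x) ∧
        ∑ x ∈ K', b' x • x ∈ Submodule.span ℝ (S : Set V) := by
  have hKne : K.Nonempty := Finset.card_pos.mp (by omega)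
  have htop : Submodule.span ℝ ((S ∪ K : Finset V) : Set V) = ⊤ := by
    apply hX.span_eq_top (Finset.union_subset hS hK)
    rw [Finset.card_union_of_disjoint hd]
    omega
  have h1 : y ∈ Submodule.span ℝ ((S ∪ K : Finset V) : Set V) := by rw [htop]; trivial
  obtain ⟨g, hg⟩ := mem_span_iff.mp h1
  rw [Finset.sum_union hd] at hg
  obtain ⟨k0, hk0, hmax⟩ := Finset.exists_max_image K (fun x => g x / b x) hKne
  set t := g k0 / b k0 with ht
  have hb0 := hb k0 hk0
  have hnn : ∀ x ∈ K, 0 ≤ t * b x - g x := by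
    intro x hx
    have h2 := hmax x hx
    rw [div_le_iff₀ (hb x hx)] at h2
    linarith
  have h0 : t * b k0 - g k0 = 0 := by
    rw [ht]
    field_simp
    ring
  let a : V → ℝ := fun x => if x = y then 1 else t * b x - g x
  have hay : a y = 1 := by simp only [a, if_true]
  have haK : ∀ x ∈ K, a x = t * b x - g x := fun x hx => by
    simp only [a, if_neg (fun h : x = y => hyK (h ▸ hx))]
  let K' : Finset V := (insert y K).filter (fun x => 0 < a x)
  have hyK' : y ∈ K' := Finset.mem_filter.mpr ⟨Finset.mem_insert_self _ _, by rw [hay]; exact one_pos⟩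
  have hsum : ∑ x ∈ K', a x • x ∈ Submodule.span ℝ (S : Set V) := by
    have e1 : ∑ x ∈ K', a x • x = ∑ x ∈ insert y K, a x • x := by
      apply Finset.sum_subset (Finset.filter_subset _ _)
      intro x hx hx'
      have h3 : ¬ 0 < a x := fun h => hx' (Finset.mem_filter.mpr ⟨hx, h⟩)
      have h4 : 0 ≤ a x := by
        rcases Finset.mem_insert.mp hx with rfl | hx
        · rw [hay]; exact zero_le_one
        · rw [haK x hx]; exact hnn x hx
      rw [le_antisymm (not_lt.mp h3) h4, zero_smul]
    rw [e1, Finset.sum_insert hyK, hay, one_smul]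
    have e2 : ∑ x ∈ K, a x • x = t • ∑ x ∈ K, b x • x - ∑ x ∈ K, g x • x := by
      rw [Finset.smul_sum, ← Finset.sum_sub_distrib]
      exact Finset.sum_congr rfl fun x hx => by rw [haK x hx, sub_smul, mul_smul]
    rw [e2]
    have e3 : y + (t • ∑ x ∈ K, b x • x - ∑ x ∈ K, g x • x)
        = ∑ x ∈ S, g x • x + t • ∑ x ∈ K, b x • x := by
      nth_rewrite 1 [← hg]
      abel
    rw [e3]
    exact Submodule.add_mem _ (mem_span_iff.mpr ⟨g, rfl⟩) (Submodule.smul_mem _ _ hbs)
  have hK'sub : K' ⊆ insert y (K.erase k0) := by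
    intro x hx
    obtain ⟨h2, h3⟩ := Finset.mem_filter.mp hx
    rcases Finset.mem_insert.mp h2 with rfl | h2
    · exact Finset.mem_insert_self _ _
    · apply Finset.mem_insert_of_mem
      refine Finset.mem_erase.mpr ⟨?_, h2⟩
      intro h4
      rw [haK x h2, h4, h0] at h3
      exact lt_irrefl _ h3
  have hle : K'.card ≤ K.card := by
    have h2 := Finset.card_le_card hK'sub
    have h3 := Finset.card_insert_le y (K.erase k0)
    rw [Finset.card_erase_of_mem hk0] at h3
    have : 0 < K.card := Finset.card_pos.mpr hKne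
    omega
  have hK'X : K' ⊆ X := by
    intro x hx
    rcases Finset.mem_insert.mp (Finset.mem_filter.mp hx).1 with rfl | h2
    · exact hy
    · exact hK h2
  have hdK' : Disjoint S K' := by
    rw [Finset.disjoint_left]
    intro x hx hx'
    rcases Finset.mem_insert.mp (Finset.mem_filter.mp hx').1 with rfl | h2
    · exact hyS hx
    · exact (Finset.disjoint_left.mp hd) hx h2
  have hge : K.card ≤ K'.card := by
    by_contra hcon
    push Not at hcon
    have h2 := hX.disj_span hS hK'X hdK' (by omega)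
    have h3 := Submodule.disjoint_def.mp h2 _ hsum (mem_span_iff.mpr ⟨a, rfl⟩)
    have h4 := coeff_zero (hX.ind K' hK'X (by omega)) a h3 y hyK'
    rw [hay] at h4
    exact one_ne_zero h4
  exact ⟨K', Finset.filter_subset _ _, hyK', le_antisymm hle hge, a,
    fun x hx => (Finset.mem_filter.mp hx).2, hsum⟩

/-- the bound for the defects -/
theorem third {X : Finset V} (hX : Gen X) (hr : 0 < r) {F : Fin r → Finset V} (hF : St X F)
    (he : finrank ℝ (MM (UU F) ⊤) + 2 ≤ (pool X F).card)
    (hmax : ∀ F' : Fin r → Finset V, St X F' → finrank ℝ (LL F') ≤ finrank ℝ (LL F))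
    (hk : finrank ℝ (LL F) = 1)
    (hext : ∀ F' : Fin r → Finset V, St X F' → finrank ℝ (LL F') = finrank ℝ (LL F) →
      (∀ j, (F' j).card ≤ (F j).card ∨ (F' j).card ≤ finrank ℝ V) → nu F' = nu F →
      ∑ j, (F' j).card ≤ ∑ j, (F j).card)
    {c : Fin r} (hc : (F c).card < finrank ℝ V) :
    3 * (finrank ℝ V - (F c).card) + 1 ≤ finrank ℝ V := by
  classical
  set D := finrank ℝ V with hD
  obtain ⟨z, hz⟩ := hF.pos
  have hcc := card_class hF c
  obtain ⟨K1, hK1P, hK1ne, hK1c, _, ⟨b1, hb1, hbs1⟩, _⟩ :=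
    mono_step hX hF c (UU_ne_top hX hF hc) (by omega) hmax
  have hlarge := quot_large hX hr hF (by omega) hmax
  obtain ⟨y, hyP, hyK1⟩ : ∃ y ∈ pool X F, y ∉ K1 := by
    by_contra hcon
    push Not at hcon
    have := Finset.card_le_card (fun x hx => hcon x hx : pool X F ⊆ K1)
    omega
  have hPX : ∀ x ∈ pool X F, x ∈ X := fun x hx => (mem_pool.mp hx).1
  have hK1X : K1 ⊆ X := fun x hx => hPX x (hK1P hx)
  have hd : ∀ K ⊆ pool X F, Disjoint (F c) K := by
    intro K hK
    rw [Finset.disjoint_left]
    intro x hx hx'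
    exact (mem_pool.mp (hK hx')).2 c hx
  obtain ⟨K2, hK2s, hyK2, hK2c, b2, hb2, hbs2⟩ := second hX (hF.sub c) hK1X hc
    (by omega) (hd K1 hK1P) hb1 hbs1 (hPX y hyP) ((mem_pool.mp hyP).2 c) hyK1
  have hK2P : K2 ⊆ pool X F := by
    intro x hx
    rcases Finset.mem_insert.mp (hK2s hx) with rfl | h
    · exact hyP
    · exact hK1P h
  -- tie sets
  have htie : ∀ (K : Finset V) (b : V → ℝ), K ⊆ pool X F → K.card = K1.card →
      (∀ x ∈ K, 0 < b x) → ∑ x ∈ K, b x • x ∈ UU F c →
      ∃ T ⊆ F c, Rel (K ∪ (F c \ T)) z ∧ K.card ≤ T.card := by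
    intro K b hK hKc hb hbs
    have hKX : K ⊆ X := fun x hx => hPX x (hK hx)
    have hKne : K.Nonempty := Finset.card_pos.mp (by omega)
    obtain ⟨T, hT, hTne, hrel⟩ := tieK hX (hF.sub c) hKX hc (hd K hK).symm hKne (hz c) hb hbs
    refine ⟨T, hT, hrel, ?_⟩
    have hSt' := allowed hX hr hF he hmax hc hK (by omega) hb hbs
    have hSt : St X (Function.update F c (K ∪ (F c \ T))) := by
      refine shrink hSt' _ ?_ z fun j => ?_
      · intro j
        by_cases hj : j = c
        · subst hj
          simp only [Function.update_self]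
          intro x hx
          rcases Finset.mem_union.mp hx with h1 | h1
          · exact Finset.mem_union_right _ h1
          · exact Finset.mem_union_left _ (Finset.mem_sdiff.mp h1).1
        · simp [hj]
      · by_cases hj : j = c
        · subst hj
          simpa using hrel
        · simpa [hj] using hz j
    have hzmem : z ∈ LL (Function.update F c (K ∪ (F c \ T))) := by
      obtain ⟨z', hz'⟩ := hSt.pos
      refine (Submodule.mem_iInf _).mpr fun j => ?_
      by_cases hj : j = c
      · subst hj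
        rw [UU_update_self]
        exact hrel.mem_span
      · rw [UU_update_ne hj]
        exact (hz j).mem_span
    have hz0 : z ≠ 0 := by
      intro h
      obtain ⟨l, hl⟩ := hX.acyc
      obtain ⟨α, hα, hαz⟩ := hz c
      have hne : (F c).Nonempty := Finset.card_pos.mp (by omega)
      have h1 : 0 < l z := by
        rw [← hαz, map_sum]
        apply Finset.sum_pos _ hne
        intro x hx
        rw [map_smul, smul_eq_mul]
        exact mul_pos (hα x hx) (hl x (hF.sub c hx))
      rw [h, map_zero] at h1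
      exact lt_irrefl _ h1
    have hfr : 1 ≤ finrank ℝ (LL (Function.update F c (K ∪ (F c \ T)))) := by
      rw [Nat.one_le_iff_ne_zero]
      intro h
      rw [Submodule.finrank_eq_zero] at h
      rw [h, Submodule.mem_bot] at hzmem
      exact hz0 hzmem
    have hdis : Disjoint K (F c \ T) := (hd K hK).symm.mono_right Finset.sdiff_subset
    have hcard : (K ∪ (F c \ T)).card + T.card = D + 1 := by
      rw [Finset.card_union_of_disjoint hdis, add_assoc, Finset.card_sdiff_add_card_eq_card hT]
      omega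
    have hTpos : 0 < T.card := Finset.card_pos.mpr hTne
    have hcle : (K ∪ (F c \ T)).card ≤ D := by omega
    have h1 := hext _ hSt (le_antisymm (hmax _ hSt) (by omega)) (by
      intro j
      by_cases hj : j = c
      · subst hj
        right
        simpa using hcle
      · left
        simp [hj]) (nu_update hc.le hcle)
    have h2 : ∑ j, (Function.update F c (K ∪ (F c \ T)) j).card + (F c).card
        = ∑ j, (F j).card + (K ∪ (F c \ T)).card := by
      rw [← Finset.sum_erase_add _ _ (Finset.mem_univ c),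
        ← Finset.sum_erase_add _ (fun j => (F j).card) (Finset.mem_univ c)]
      have h3 : ∑ j ∈ Finset.univ.erase c, (Function.update F c (K ∪ (F c \ T)) j).card
          = ∑ j ∈ Finset.univ.erase c, (F j).card := by
        refine Finset.sum_congr rfl fun j hj => ?_
        rw [Function.update_of_ne (Finset.mem_erase.mp hj).1]
      rw [h3, Function.update_self]
      ring
    omega
  obtain ⟨T1, hT1, hrel1, hT1c⟩ := htie K1 b1 hK1P rfl hb1 hbs1
  obtain ⟨T2, hT2, hrel2, hT2c⟩ := htie K2 b2 hK2P hK2c hb2 hbs2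
  -- the two tie sets have at most one common element
  have hint : (T1 ∩ T2).card ≤ 1 := by
    by_contra hcon
    push Not at hcon
    set G := insert y K1 ∪ (F c \ (T1 ∩ T2)) with hG
    have hG1 : K1 ∪ (F c \ T1) ⊆ G := by
      intro x hx
      rcases Finset.mem_union.mp hx with h | h
      · exact Finset.mem_union_left _ (Finset.mem_insert_of_mem h)
      · obtain ⟨h1, h2⟩ := Finset.mem_sdiff.mp h
        exact Finset.mem_union_right _ (Finset.mem_sdiff.mpr
          ⟨h1, fun h3 => h2 (Finset.mem_inter.mp h3).1⟩)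
    have hG2 : K2 ∪ (F c \ T2) ⊆ G := by
      intro x hx
      rcases Finset.mem_union.mp hx with h | h
      · exact Finset.mem_union_left _ (hK2s h)
      · obtain ⟨h1, h2⟩ := Finset.mem_sdiff.mp h
        exact Finset.mem_union_right _ (Finset.mem_sdiff.mpr
          ⟨h1, fun h3 => h2 (Finset.mem_inter.mp h3).2⟩)
    have hGX : G ⊆ X := by
      intro x hx
      rcases Finset.mem_union.mp hx with h | h
      · rcases Finset.mem_insert.mp h with rfl | h
        · exact hPX _ hyP
        · exact hK1X h
      · exact hF.sub c (Finset.mem_sdiff.mp h).1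
    have hGc : G.card ≤ D := by
      have h1 : G.card ≤ (insert y K1).card + (F c \ (T1 ∩ T2)).card :=
        Finset.card_union_le _ _
      have h2 : (insert y K1).card = K1.card + 1 := Finset.card_insert_of_notMem hyK1
      have h3 : (F c \ (T1 ∩ T2)).card + (T1 ∩ T2).card = (F c).card :=
        Finset.card_sdiff_add_card_eq_card (Finset.inter_subset_left.trans hT1)
      omega
    obtain ⟨α1, hα1, hz1⟩ := hrel1
    obtain ⟨α2, hα2, hz2⟩ := hrel2
    have h1 := coeff_zero (hX.ind G hGX hGc)
      (fun x => (if x ∈ K1 ∪ (F c \ T1) then α1 x else 0)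
        - (if x ∈ K2 ∪ (F c \ T2) then α2 x else 0)) (by
      simp only [sub_smul, Finset.sum_sub_distrib, ite_smul, zero_smul]
      rw [← Finset.sum_filter, ← Finset.sum_filter]
      have e1 : G.filter (fun x => x ∈ K1 ∪ (F c \ T1)) = K1 ∪ (F c \ T1) := by
        ext x
        rw [Finset.mem_filter]
        exact ⟨fun h => h.2, fun h => ⟨hG1 h, h⟩⟩
      have e2 : G.filter (fun x => x ∈ K2 ∪ (F c \ T2)) = K2 ∪ (F c \ T2) := by
        ext x
        rw [Finset.mem_filter]
        exact ⟨fun h => h.2, fun h => ⟨hG2 h, h⟩⟩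
      rw [e1, e2, hz1, hz2, sub_self]) y (Finset.mem_union_left _ (Finset.mem_insert_self _ _))
    have hy1 : y ∉ K1 ∪ (F c \ T1) := by
      intro h
      rcases Finset.mem_union.mp h with h | h
      · exact hyK1 h
      · exact (mem_pool.mp hyP).2 c (Finset.mem_sdiff.mp h).1
    have hy2 : y ∈ K2 ∪ (F c \ T2) := Finset.mem_union_left _ hyK2
    simp only [hy1, hy2, if_false, if_true, zero_sub, neg_eq_zero] at h1
    exact (hα2 y hy2).ne' h1
  have h1 := Finset.card_union_add_card_inter T1 T2
  have h2 := Finset.card_le_card (Finset.union_subset hT1 hT2)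
  omega

end third

end Pool.Agent.RY
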