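import Pool.Agent.Lib_helper10.RY.Ext

/-!
Closing a class by an arbitrary positive circuit.
-/

set_option linter.unusedSectionVars false

namespace Pool.Agent.RY

open scoped BigOperators Topology
open Module Filter

section close

variable {V : Type*} [AddCommGroup V] [Module ℝ V] [FiniteDimensional ℝ V] {r : ℕ}

lemma UU_update_ne {F : Fin r → Finset V} {c j : Fin r} (h : j ≠ c) (G : Finset V) :
    UU (Function.update F c G) j = UU F j := by
  unfold UU
  rw [Function.update_of_ne h]

lemma UU_update_self (F : Fin r → Finset V) (c : Fin r) (G : Finset V) :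
    UU (Function.update F c G) c = Submodule.span ℝ (G : Set V) := by
  unfold UU
  rw [Function.update_self]

lemma pool_update [DecidableEq V] (X : Finset V) (F : Fin r → Finset V) (c : Fin r)
    (K : Finset V) :
    ∀ x, x ∈ pool X (Function.update F c (F c ∪ K)) ↔ x ∈ pool X F ∧ x ∉ K := by
  classical
  intro x
  rw [mem_pool, mem_pool]
  constructor
  · rintro ⟨h1, h2⟩
    have h3 := h2 c
    rw [Function.update_self, Finset.mem_union, not_or] at h3
    refine ⟨⟨h1, fun j => ?_⟩, h3.2⟩
    by_cases hj : j = c
    · rw [hj]; exact h3.1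
    · have := h2 j
      rwa [Function.update_of_ne hj] at this
  · rintro ⟨⟨h1, h2⟩, h3⟩
    refine ⟨h1, fun j => ?_⟩
    by_cases hj : j = c
    · subst hj
      rw [Function.update_self, Finset.mem_union, not_or]
      exact ⟨h2 j, h3⟩
    · rw [Function.update_of_ne hj]
      exact h2 j

lemma card_pool_update [DecidableEq V] {X : Finset V} {F : Fin r → Finset V} {c : Fin r} {K : Finset V}
    (hK : K ⊆ pool X F) :
    (pool X (Function.update F c (F c ∪ K))).card + K.card = (pool X F).card := by
  classical
  have h1 : pool X (Function.update F c (F c ∪ K)) = pool X F \ K := by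
    ext x
    rw [pool_update, Finset.mem_sdiff]
  rw [h1]
  exact Finset.card_sdiff_add_card_eq_card hK

lemma LL_le_update (F : Fin r → Finset V) (c : Fin r) (K : Finset V) [DecidableEq V] :
    LL F ≤ LL (Function.update F c (F c ∪ K)) := by
  apply iInf_mono
  intro j
  by_cases hj : j = c
  · subst hj
    rw [UU_update_self]
    apply Submodule.span_mono
    exact_mod_cast Finset.subset_union_left
  · rw [UU_update_ne hj]

/-- the dimension after closing a class -/
lemma finrank_close (hr : 0 < r) {F : Fin r → Finset V} {c : Fin r} {G : Finset V}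
    (hG : Submodule.span ℝ (G : Set V) = ⊤)
    (hLL : finrank ℝ (LL (Function.update F c G)) = finrank ℝ (LL F)) :
    finrank ℝ (MM (UU (Function.update F c G)) ⊤) + finrank ℝ V
      = finrank ℝ (MM (UU F) ⊤) + finrank ℝ (UU F c) := by
  classical
  have h1 := finrank_MM hr (UU F) ⊤
  have h2 := finrank_MM hr (UU (Function.update F c G)) ⊤
  rw [top_inf_eq, finrank_top] at h1 h2
  have e1 : (⨅ j, UU F j) = LL F := rfl
  have e2 : (⨅ j, UU (Function.update F c G) j) = LL (Function.update F c G) := rfl
  rw [e1] at h1
  rw [e2, hLL] at h2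
  have h3 : ∑ j, finrank ℝ (UU (Function.update F c G) j) + finrank ℝ (UU F c)
      = ∑ j, finrank ℝ (UU F j) + finrank ℝ V := by
    rw [← Finset.sum_erase_add _ _ (Finset.mem_univ c),
      ← Finset.sum_erase_add _ (fun j => finrank ℝ (UU F j)) (Finset.mem_univ c)]
    have h4 : ∑ j ∈ Finset.univ.erase c, finrank ℝ (UU (Function.update F c G) j)
        = ∑ j ∈ Finset.univ.erase c, finrank ℝ (UU F j) := by
      refine Finset.sum_congr rfl fun j hj => ?_
      rw [UU_update_ne (Finset.mem_erase.mp hj).1]
    rw [h4, UU_update_self, hG, finrank_top]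
    ring
  omega

/-- with two spare points, `LL F` is the intersection of any `r - 2` spans -/
theorem inj2 {X : Finset V} (hX : Gen X) (hr : 0 < r) {F : Fin r → Finset V} (hF : St X F)
    (he : finrank ℝ (MM (UU F) ⊤) + 2 ≤ (pool X F).card)
    (hmax : ∀ F' : Fin r → Finset V, St X F' → finrank ℝ (LL F') ≤ finrank ℝ (LL F))
    {c i : Fin r} (hci : i ≠ c) (hc : (F c).card < finrank ℝ V)
    (hi : (F i).card < finrank ℝ V) (v : V) (hv : ∀ k, k ≠ c → k ≠ i → v ∈ UU F k) :
    v ∈ LL F := by
  classical
  obtain ⟨K, hKP, _, hKcard, hSt, _, hinj⟩ :=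
    mono_step hX hF c (UU_ne_top hX hF hc) (by omega) hmax
  have hdisjK : Disjoint (F c) K := by
    rw [Finset.disjoint_left]
    intro x hx hx'
    exact (mem_pool.mp (hKP hx')).2 c hx
  have hKX : K ⊆ X := fun x hx => (mem_pool.mp (hKP hx)).1
  have htop : Submodule.span ℝ ((F c ∪ K : Finset V) : Set V) = ⊤ := by
    apply hX.span_eq_top (Finset.union_subset (hF.sub c) hKX)
    rw [Finset.card_union_of_disjoint hdisjK]
    omega
  have hLLe : finrank ℝ (LL (Function.update F c (F c ∪ K))) = finrank ℝ (LL F) :=
    le_antisymm (hmax _ hSt) (Submodule.finrank_mono (LL_le_update F c K))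
  have hfr := finrank_close hr htop hLLe
  have hcp := card_pool_update (c := c) hKP
  have hUc : finrank ℝ (UU F c) = (F c).card := hX.finrank_span (hF.sub c) hc.le
  have hne : UU (Function.update F c (F c ∪ K)) i ≠ ⊤ := by
    rw [UU_update_ne hci]
    exact UU_ne_top hX hF hi
  obtain ⟨_, _, _, _, _, _, hinj'⟩ := mono_step hX hSt i hne (by omega) (by
    intro F' hF'
    rw [hLLe]
    exact hmax F' hF')
  have h1 : v ∈ UU (Function.update F c (F c ∪ K)) i := by
    apply hinj'
    intro k hk
    by_cases hkc : k = c
    · rw [hkc, UU_update_self, htop]; trivial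
    · rw [UU_update_ne hkc]; exact hv k hkc hk
  rw [UU_update_ne hci] at h1
  have h2 : ∀ k, k ≠ c → v ∈ UU F k := by
    intro k hk
    by_cases hki : k = i
    · rw [hki]; exact h1
    · exact hv k hk hki
  have h3 := hinj v h2
  refine (Submodule.mem_iInf _).mpr fun k => ?_
  by_cases hk : k = c
  · rw [hk]; exact h3
  · exact h2 k hk

lemma rel_union {S K : Finset V} [DecidableEq V] (hd : Disjoint S K) {z : V} (hz : Rel S z)
    {b : V → ℝ} (hb : ∀ x ∈ K, 0 < b x)
    (hbs : ∑ x ∈ K, b x • x ∈ Submodule.span ℝ (S : Set V)) : Rel (S ∪ K) z := by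
  have h1 : -∑ x ∈ K, b x • x ∈ Submodule.span ℝ (S : Set V) := Submodule.neg_mem _ hbs
  obtain ⟨ε, h2, h3⟩ := ((ev_rel hz h1).and self_mem_nhdsWithin).exists
  have h3' : 0 < ε := h3
  obtain ⟨α, hα, hαz⟩ := h2
  refine ⟨fun x => if x ∈ S then α x else ε * b x, ?_, ?_⟩
  · intro x hx
    by_cases hxS : x ∈ S
    · simp only [hxS, if_true]; exact hα x hxS
    · simp only [hxS, if_false]
      exact mul_pos h3' (hb x ((Finset.mem_union.mp hx).resolve_left hxS))
  · rw [Finset.sum_union hd]
    have e1 : ∑ x ∈ S, (if x ∈ S then α x else ε * b x) • x = ∑ x ∈ S, α x • x :=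
      Finset.sum_congr rfl fun x hx => by rw [if_pos hx]
    have e2 : ∑ x ∈ K, (if x ∈ S then α x else ε * b x) • x = ε • ∑ x ∈ K, b x • x := by
      rw [Finset.smul_sum]
      exact Finset.sum_congr rfl fun x hx => by
        rw [if_neg (fun h => (Finset.disjoint_left.mp hd) h hx), mul_smul]
    rw [e1, e2, hαz, smul_neg]
    abel

open Classical in
/-- with two spare points every positive circuit may be used -/
theorem allowed {X : Finset V} (hX : Gen X) (hr : 0 < r) {F : Fin r → Finset V} (hF : St X F)
    (he : finrank ℝ (MM (UU F) ⊤) + 2 ≤ (pool X F).card)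
    (hmax : ∀ F' : Fin r → Finset V, St X F' → finrank ℝ (LL F') ≤ finrank ℝ (LL F))
    {c : Fin r} (hc : (F c).card < finrank ℝ V) {K : Finset V} (hK : K ⊆ pool X F)
    (hKc : K.card + (F c).card = finrank ℝ V + 1) {b : V → ℝ} (hb : ∀ x ∈ K, 0 < b x)
    (hbs : ∑ x ∈ K, b x • x ∈ UU F c) :
    St X (Function.update F c (F c ∪ K)) := by
  have hdisjK : Disjoint (F c) K := by
    rw [Finset.disjoint_left]
    intro x hx hx'
    exact (mem_pool.mp (hK hx')).2 c hx
  have hKX : K ⊆ X := fun x hx => (mem_pool.mp (hK hx)).1
  have htop : Submodule.span ℝ ((F c ∪ K : Finset V) : Set V) = ⊤ := by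
    apply hX.span_eq_top (Finset.union_subset (hF.sub c) hKX)
    rw [Finset.card_union_of_disjoint hdisjK]
    omega
  set F' := Function.update F c (F c ∪ K) with hF'
  have hLLeq : LL F' = LL F := by
    apply le_antisymm _ (LL_le_update F c K)
    intro v hv
    by_cases hex : ∃ i, i ≠ c ∧ (F i).card < finrank ℝ V
    · obtain ⟨i, hi, hic⟩ := hex
      apply inj2 hX hr hF he hmax hi hc hic
      intro k hk _
      have := (Submodule.mem_iInf _).mp hv k
      rwa [UU_update_ne hk] at this
    · push Not at hex
      -- only one class is small: then `UU F c` contains everything in the others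
      obtain ⟨_, _, _, _, _, _, hinj⟩ :=
        mono_step hX hF c (UU_ne_top hX hF hc) (by omega) hmax
      refine (Submodule.mem_iInf _).mpr fun k => ?_
      have h1 : ∀ k, k ≠ c → v ∈ UU F k := by
        intro k hk
        have := (Submodule.mem_iInf _).mp hv k
        rwa [UU_update_ne hk] at this
      by_cases hk : k = c
      · rw [hk]; exact hinj v h1
      · exact h1 k hk
  have hfr := finrank_close hr htop (by rw [← hF', hLLeq])
  rw [← hF'] at hfr
  have hcp := card_pool_update (c := c) hK
  rw [← hF'] at hcp
  have hUc : finrank ℝ (UU F c) = (F c).card := hX.finrank_span (hF.sub c) hc.le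
  obtain ⟨Q, hQ, hQcard⟩ := Finset.exists_subset_card_eq
    (show finrank ℝ (MM (UU F') ⊤) ≤ (pool X F').card by omega)
  have hQP : ∀ x ∈ Q, x ∈ pool X F := fun x hx => ((pool_update X F c K x).mp (hQ hx)).1
  have hQX : Q ⊆ X := fun x hx => (mem_pool.mp (hQP x hx)).1
  obtain ⟨s, hs⟩ := rado_MM hr (UU F') ⊤ Q (by
    intro T hT hTne
    have hTX : T ⊆ X := hT.trans hQX
    have hTpos : 0 < T.card := Finset.card_pos.mpr hTne
    have hdT : ∀ i, Disjoint (F i) T := by
      intro i
      rw [Finset.disjoint_left]
      intro x hx hx'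
      exact (mem_pool.mp (hQP x (hT hx'))).2 i hx
    by_cases h : ∃ i, i ≠ c ∧ (F i).card + T.card ≤ finrank ℝ V
    · obtain ⟨i, hic, hi⟩ := h
      have hd := hX.disj_span (hF.sub i) hTX (hdT i) hi
      have hli : LinearIndependent ℝ (fun x : {x // x ∈ T} => io (UU F') ⊤ i (x : V)) := by
        rw [Fintype.linearIndependent_iff]
        intro g hg
        have h1 : io (UU F') ⊤ i (∑ x : {x // x ∈ T}, g x • (x : V)) = 0 := by
          rw [map_sum, ← hg]
          exact Finset.sum_congr rfl fun x _ => by rw [map_smul]
        rw [io_eq_zero_iff] at h1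
        obtain ⟨w, _, hw1, hw2⟩ := h1
        have h2 : w ∈ LL F := by
          apply inj2 hX hr hF he hmax hic hc (by omega)
          intro k hkc hki
          have := hw2 k hki
          rwa [hF', UU_update_ne hkc] at this
        have h2' : w ∈ UU F i := (Submodule.mem_iInf _).mp h2 i
        have h3 : ∑ x : {x // x ∈ T}, g x • (x : V) ∈ UU F i := by
          rw [hF', UU_update_ne hic] at hw1
          have := (UU F i).add_mem hw1 h2'
          simpa using this
        have h4 : ∑ x : {x // x ∈ T}, g x • (x : V) ∈ Submodule.span ℝ (T : Set V) :=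
          Submodule.sum_mem _ fun x _ => Submodule.smul_mem _ _ (Submodule.subset_span x.2)
        have h5 := Submodule.disjoint_def.mp hd _ h3 h4
        exact Fintype.linearIndependent_iff.mp (hX.ind T hTX (by omega)) g h5
      have h1 := finrank_span_eq_card hli
      rw [Fintype.card_coe] at h1
      rw [← h1]
      apply Submodule.finrank_mono
      apply Submodule.span_mono
      rintro _ ⟨x, rfl⟩
      exact ⟨x, x.2, i, rfl⟩
    · push Not at h
      have htop' : Submodule.span ℝ {v : MM (UU F') ⊤ | ∃ x ∈ T, ∃ c, io (UU F') ⊤ c x = v}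
          = ⊤ := by
        rw [eq_top_iff]
        intro v _
        obtain ⟨w, rfl⟩ := Submodule.mkQ_surjective _ v
        rw [← sum_io]
        refine Submodule.sum_mem _ fun j _ => ?_
        by_cases hj : j = c
        · rw [io_eq_zero_of_mem]
          · exact Submodule.zero_mem _
          · rw [hj, hF', UU_update_self, htop]; trivial
        · have h1 : Submodule.span ℝ ((F j ∪ T : Finset V) : Set V) = ⊤ := by
            apply hX.span_eq_top (Finset.union_subset (hF.sub j) hTX)
            rw [Finset.card_union_of_disjoint (hdT j)]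
            exact (h j hj).le
          have h2 : w j ∈ Submodule.span ℝ ((F j ∪ T : Finset V) : Set V) := by
            rw [h1]; trivial
          obtain ⟨b, hb⟩ := mem_span_iff.mp h2
          rw [← hb, map_sum]
          refine Submodule.sum_mem _ fun x hx => ?_
          rw [map_smul]
          apply Submodule.smul_mem
          rcases Finset.mem_union.mp hx with hx | hx
          · rw [io_eq_zero_of_mem]
            · exact Submodule.zero_mem _
            · rw [hF', UU_update_ne hj]
              exact Submodule.subset_span hx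
          · exact Submodule.subset_span ⟨x, hx, j, rfl⟩
      rw [htop', finrank_top, ← hQcard]
      exact Finset.card_le_card hT)
  obtain ⟨z, hz⟩ := hF.pos
  refine ⟨?_, ?_, ⟨z, ?_⟩, ⟨s, ?_⟩⟩
  · intro j
    by_cases hj : j = c
    · subst hj
      rw [hF', Function.update_self]
      exact Finset.union_subset (hF.sub j) hKX
    · rw [hF', Function.update_of_ne hj]
      exact hF.sub j
  · intro i j hij
    have hKj : ∀ j, Disjoint K (F j) := by
      intro j
      rw [Finset.disjoint_left]
      intro x hx hx'
      exact (mem_pool.mp (hK hx)).2 j hx'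
    by_cases hi : i = c
    · have hj : j ≠ c := fun h => hij (hi.trans h.symm)
      rw [hF', hi, Function.update_self, Function.update_of_ne hj]
      exact Finset.disjoint_union_left.mpr ⟨hF.disj c j (fun h => hj h.symm), hKj j⟩
    · by_cases hj : j = c
      · rw [hF', hj, Function.update_self, Function.update_of_ne hi]
        exact Finset.disjoint_union_right.mpr ⟨hF.disj i c hi, (hKj i).symm⟩
      · rw [hF', Function.update_of_ne hi, Function.update_of_ne hj]
        exact hF.disj i j hij
  · intro j
    by_cases hj : j = c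
    · subst hj
      rw [hF', Function.update_self]
      exact rel_union hdisjK (hz j) hb hbs
    · rw [hF', Function.update_of_ne hj]
      exact hz j
  · rw [eq_top_iff, ← span_of_li (UU F') ⊤ Q s hQcard hs]
    apply Submodule.span_mono
    rintro _ ⟨x, hx, rfl⟩
    exact ⟨x, hQ hx, rfl⟩

end close

end Pool.Agent.RY
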